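import Pool.Agent.Run7.h719.MO.Iface

set_option autoImplicit false

open MeasureTheory Set Filter Real
open scoped ContDiff

namespace Run7.h592.MO

theorem conj_exp (x : ℝ) :
    (starRingEnd ℂ) (Complex.exp (x * Complex.I)) = Complex.exp (-(x * Complex.I)) := by
  rw [← Complex.exp_conj]
  simp

theorem exp_sub' (x y : ℝ) : Complex.exp (x * Complex.I) * Complex.exp (-(y * Complex.I)) =
    Complex.exp (((x - y : ℝ) : ℂ) * Complex.I) := by
  rw [← Complex.exp_add]
  congr 1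
  push_cast
  ring

theorem t_CIRC : Run7.h719.MO.S_CIRC := by
  intro W z r hr hW
  obtain ⟨ρ, hρ⟩ : ∃ ρ, ρ = ‖z‖ := ⟨_, rfl⟩
  obtain ⟨γ, hγ⟩ : ∃ γ, γ = Complex.arg z := ⟨_, rfl⟩
  have hz : z = (ρ : ℂ) * Complex.exp (γ * Complex.I) := by
    rw [hρ, hγ, Complex.norm_mul_exp_arg_mul_I]
  rw [← hρ]
  let G : ℝ → ℂ := fun θ => Complex.I * (r : ℂ) * ((ρ : ℂ) * Complex.exp (θ * Complex.I) + (r : ℂ)) *
    ((W (ρ ^ 2 + r ^ 2 + 2 * ρ * r * Real.cos θ) : ℝ) : ℂ)
  have hGc : Continuous G := by fun_prop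
  have hGp : Function.Periodic G (2 * π) := by
    intro θ
    simp only [G, Real.cos_add_two_pi]
    have : Complex.exp (((θ + 2 * π : ℝ) : ℂ) * Complex.I) = Complex.exp (θ * Complex.I) := by
      push_cast
      rw [add_mul, Complex.exp_add, Complex.exp_two_pi_mul_I, mul_one]
    rw [this]
  have h1 : ∀ θ : ℝ, deriv (circleMap z r) θ • ((starRingEnd ℂ (circleMap z r θ)) *
      ((W (‖circleMap z r θ‖ ^ 2) : ℝ) : ℂ)) = G (θ - γ) := by
    intro θ
    have hcm : circleMap z r θ = z + (r : ℂ) * Complex.exp (θ * Complex.I) := rfl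
    have hn : ‖circleMap z r θ‖ ^ 2 = ρ ^ 2 + r ^ 2 + 2 * ρ * r * Real.cos (θ - γ) := by
      rw [hcm, Complex.sq_norm, Complex.normSq_add, ← Complex.sq_norm, ← Complex.sq_norm, ← hρ,
        norm_mul, Complex.norm_exp_ofReal_mul_I, mul_one, Complex.norm_real, Real.norm_eq_abs, sq_abs]
      have h2 : z * (starRingEnd ℂ) ((r : ℂ) * Complex.exp (θ * Complex.I)) =
          ((ρ * r : ℝ) : ℂ) * Complex.exp (((γ - θ : ℝ) : ℂ) * Complex.I) := by
        rw [map_mul, conj_exp, Complex.conj_ofReal, ← exp_sub', hz]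
        push_cast
        ring
      rw [h2, Complex.re_ofReal_mul, Complex.exp_ofReal_mul_I_re, ← Real.cos_neg (γ - θ), neg_sub]
      ring
    rw [hn, deriv_circleMap, hcm, map_add, map_mul, conj_exp, Complex.conj_ofReal]
    have h3 : (starRingEnd ℂ) z = (ρ : ℂ) * Complex.exp (-(γ * Complex.I)) := by
      rw [hz, map_mul, conj_exp, Complex.conj_ofReal]
    have h4 : circleMap 0 r θ = (r : ℂ) * Complex.exp (θ * Complex.I) := by
      simp [circleMap]
    have h5 : Complex.exp (θ * Complex.I) * Complex.exp (-(θ * Complex.I)) = 1 := by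
      rw [exp_sub']
      simp
    rw [h3, h4, smul_eq_mul]
    simp only [G]
    rw [← exp_sub' θ γ]
    linear_combination (Complex.I * (r : ℂ) ^ 2 *
      ((W (ρ ^ 2 + r ^ 2 + 2 * ρ * r * Real.cos (θ - γ)) : ℝ) : ℂ)) * h5
  have h6 : (∮ ζ in C(z, r), (starRingEnd ℂ ζ) * ((W (‖ζ‖ ^ 2) : ℝ) : ℂ)) =
      ∫ θ in (0 : ℝ)..(2 * π), G (θ - γ) := by
    unfold circleIntegral
    exact intervalIntegral.integral_congr fun θ _ => h1 θ
  rw [h6, intervalIntegral.integral_comp_sub_right]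
  have h7 : ∫ θ in (0 - γ)..(2 * π - γ), G θ = ∫ θ in (-π)..(-π + 2 * π), G θ := by
    have := hGp.intervalIntegral_add_eq (0 - γ) (-π)
    rw [← this]
    congr 1
    ring
  rw [h7]
  have h8 : -π + 2 * π = π := by ring
  rw [h8, ← intervalIntegral.integral_add_adjacent_intervals (b := 0)
    (hGc.intervalIntegrable _ _) (hGc.intervalIntegrable _ _)]
  have h9 : ∫ θ in (-π)..0, G θ = ∫ θ in (0 : ℝ)..π, G (-θ) := by
    rw [intervalIntegral.integral_comp_neg]
    simp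
  have hGn : Continuous (fun θ : ℝ => G (-θ)) := hGc.comp continuous_neg
  rw [h9, ← intervalIntegral.integral_add (hGn.intervalIntegrable _ _) (hGc.intervalIntegrable _ _)]
  have h10 : ∀ θ : ℝ, G (-θ) + G θ = (2 * Complex.I * (r : ℂ)) *
      ((((r + ρ * Real.cos θ) * W (ρ ^ 2 + r ^ 2 + 2 * ρ * r * Real.cos θ) : ℝ)) : ℂ) := by
    intro θ
    simp only [G, Real.cos_neg]
    have : Complex.exp (((-θ : ℝ) : ℂ) * Complex.I) + Complex.exp ((θ : ℂ) * Complex.I) =
        2 * ((Real.cos θ : ℝ) : ℂ) := by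
      rw [Complex.ofReal_cos, Complex.cos]
      push_cast
      ring_nf
    push_cast at this ⊢
    linear_combination (Complex.I * (r : ℂ) * (ρ : ℂ) *
      ((W (ρ ^ 2 + r ^ 2 + 2 * ρ * r * Real.cos θ) : ℝ) : ℂ)) * this
  rw [intervalIntegral.integral_congr (g := fun θ : ℝ => (2 * Complex.I * (r : ℂ)) *
      ((((r + ρ * Real.cos θ) * W (ρ ^ 2 + r ^ 2 + 2 * ρ * r * Real.cos θ) : ℝ)) : ℂ))
      fun θ _ => h10 θ, intervalIntegral.integral_const_mul, intervalIntegral.integral_ofReal]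
  unfold Run7.h719.MO.Aop
  push_cast
  ring

end Run7.h592.MO
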