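import Pool.Agent.Run7.h719.MO.Iface

set_option autoImplicit false

open MeasureTheory Set Filter Real BoundedContinuousFunction
open scoped ContDiff

namespace Run7.h592.MO

theorem exp_int (L X c : ℝ) (hL : 0 < L) :
    ∫ τ in c..X, Real.exp (-L * (X - τ)) = (1 - Real.exp (-L * (X - c))) / L := by
  have h1 : ∀ τ ∈ uIcc c X, HasDerivAt (fun τ => Real.exp (-L * (X - τ)) / L)
      (Real.exp (-L * (X - τ))) τ := by
    intro τ _
    have h2 : HasDerivAt (fun τ : ℝ => -L * (X - τ)) (-L * (0 - 1)) τ :=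
      ((hasDerivAt_const τ X).sub (hasDerivAt_id τ)).const_mul (-L)
    have h3 := (h2.exp).div_const L
    have h4 : Real.exp (-L * (X - τ)) * (-L * (0 - 1)) / L = Real.exp (-L * (X - τ)) := by
      rw [div_eq_iff hL.ne']
      ring
    rw [h4] at h3
    exact h3
  rw [intervalIntegral.integral_eq_sub_of_hasDerivAt h1
    (Continuous.intervalIntegrable (by fun_prop) _ _)]
  simp
  ring

theorem bound (N : ℝ × ℝ → ℝ) (M : ℝ) (hM : 0 ≤ M) (hNM : ∀ p, |N p| ≤ M)
    (c X x : ℝ) (hX : c ≤ X) (Φ : ℝ →ᵇ ℝ) :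
    |∫ τ in c..X, N (τ, x) * Real.exp (-(2 * M + 1) * (X - τ)) * Φ τ| ≤ ‖Φ‖ / 2 := by
  have hL : 0 < 2 * M + 1 := by linarith
  have h1 : ‖∫ τ in c..X, N (τ, x) * Real.exp (-(2 * M + 1) * (X - τ)) * Φ τ‖
      ≤ ∫ τ in c..X, (M * ‖Φ‖) * Real.exp (-(2 * M + 1) * (X - τ)) := by
    apply intervalIntegral.norm_integral_le_of_norm_le hX
    · refine Filter.Eventually.of_forall fun τ _ => ?_
      rw [norm_mul, norm_mul, Real.norm_eq_abs, Real.norm_eq_abs, abs_of_pos (Real.exp_pos _)]
      have h2 := hNM (τ, x)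
      have h3 := Φ.norm_coe_le_norm τ
      have h4 := Real.exp_pos (-(2 * M + 1) * (X - τ))
      calc |N (τ, x)| * Real.exp (-(2 * M + 1) * (X - τ)) * ‖Φ τ‖
          ≤ M * Real.exp (-(2 * M + 1) * (X - τ)) * ‖Φ‖ := by gcongr
        _ = _ := by ring
    · exact Continuous.intervalIntegrable (by fun_prop) _ _
  rw [intervalIntegral.integral_const_mul, exp_int _ _ _ hL] at h1
  refine h1.trans ?_
  have h5 := Real.exp_pos (-(2 * M + 1) * (X - c))
  have h6 : (1 - Real.exp (-(2 * M + 1) * (X - c))) / (2 * M + 1) ≤ 1 / (2 * M + 1) := by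
    apply div_le_div_of_nonneg_right _ hL.le
    linarith
  calc M * ‖Φ‖ * ((1 - Real.exp (-(2 * M + 1) * (X - c))) / (2 * M + 1))
      ≤ M * ‖Φ‖ * (1 / (2 * M + 1)) := by
        apply mul_le_mul_of_nonneg_left h6
        positivity
    _ = ‖Φ‖ * (M / (2 * M + 1)) := by ring
    _ ≤ ‖Φ‖ * (1 / 2) := by
        apply mul_le_mul_of_nonneg_left _ (norm_nonneg _)
        rw [div_le_div_iff₀ hL (by norm_num)]
        linarith
    _ = _ := by ring

theorem t_VOL : Run7.h719.MO.S_VOL := by
  intro c N h hN hNc hh hhc hh0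
  obtain ⟨M, hNM⟩ := hN.bounded_above_of_compact_support hNc
  have hM : 0 ≤ M := (norm_nonneg _).trans (hNM 0)
  have hNM' : ∀ p, |N p| ≤ M := fun p => by rw [← Real.norm_eq_abs]; exact hNM p
  obtain ⟨L, hL⟩ : ∃ L, L = 2 * M + 1 := ⟨_, rfl⟩
  -- the free term
  have hg : Continuous (fun x => Real.exp (-L * (x - c)) * h x) := by fun_prop
  have hgc : HasCompactSupport (fun x => Real.exp (-L * (x - c)) * h x) := hhc.mul_left
  obtain ⟨C, hC⟩ := hg.bounded_above_of_compact_support hgc
  -- the map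
  let f : (ℝ →ᵇ ℝ) → ℝ → ℝ := fun Φ x => Real.exp (-L * (x - c)) * h x +
    ∫ τ in c..max x c, N (τ, x) * Real.exp (-L * (max x c - τ)) * Φ τ
  have hfc : ∀ Φ : ℝ →ᵇ ℝ, Continuous (f Φ) := by
    intro Φ
    refine hg.add ?_
    apply intervalIntegral.continuous_parametric_intervalIntegral_of_continuous
    · have h1 : Continuous (fun p : ℝ × ℝ => Φ p.2) := Φ.continuous.comp continuous_snd
      have h2 : Continuous (fun p : ℝ × ℝ => N (p.2, p.1)) := by fun_prop
      show Continuous (fun p : ℝ × ℝ => N (p.2, p.1) * Real.exp (-L * (max p.1 c - p.2)) * Φ p.2)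
      exact (h2.mul (by fun_prop)).mul h1
    · fun_prop
  have hfb : ∀ (Φ : ℝ →ᵇ ℝ) (x : ℝ), ‖f Φ x‖ ≤ C + ‖Φ‖ / 2 := by
    intro Φ x
    refine (norm_add_le _ _).trans (add_le_add (hC x) ?_)
    rw [Real.norm_eq_abs, hL]
    exact bound N M hM hNM' c (max x c) x (le_max_right _ _) Φ
  let T : (ℝ →ᵇ ℝ) → (ℝ →ᵇ ℝ) := fun Φ =>
    BoundedContinuousFunction.ofNormedAddCommGroup (f Φ) (hfc Φ) _ (hfb Φ)
  have hT : ContractingWith (1 / 2 : NNReal) T := by
    refine ⟨by rw [div_lt_one] <;> norm_num, LipschitzWith.of_dist_le_mul fun Φ Φ' => ?_⟩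
    rw [BoundedContinuousFunction.dist_le (by positivity)]
    intro x
    have e : T Φ x - T Φ' x =
        ∫ τ in c..max x c, N (τ, x) * Real.exp (-(2 * M + 1) * (max x c - τ)) * (Φ - Φ') τ := by
      show f Φ x - f Φ' x = _
      simp only [f]
      rw [add_sub_add_left_eq_sub, ← intervalIntegral.integral_sub]
      · apply intervalIntegral.integral_congr
        intro τ _
        simp only [BoundedContinuousFunction.coe_sub, Pi.sub_apply, hL]
        ring
      · apply Continuous.intervalIntegrable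
        have := Φ.continuous
        fun_prop
      · apply Continuous.intervalIntegrable
        have := Φ'.continuous
        fun_prop
    rw [Real.dist_eq, e, dist_eq_norm]
    refine (bound N M hM hNM' c (max x c) x (le_max_right _ _) (Φ - Φ')).trans ?_
    rw [NNReal.coe_div, NNReal.coe_one, NNReal.coe_ofNat]
    linarith
  obtain ⟨Φ, hΦ⟩ : ∃ Φ, T Φ = Φ := ⟨hT.fixedPoint T, hT.fixedPoint_isFixedPt⟩
  have hΦ' : ∀ x, Φ x = Real.exp (-L * (x - c)) * h x +
      ∫ τ in c..max x c, N (τ, x) * Real.exp (-L * (max x c - τ)) * Φ τ := by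
    intro x
    have := congrArg (fun F : ℝ →ᵇ ℝ => F x) hΦ
    exact this.symm
  have hΦ0 : ∀ x ≤ c, Φ x = 0 := by
    intro x hx
    rw [hΦ' x, hh0 x hx, max_eq_right hx]
    simp
  refine ⟨fun x => Real.exp (L * (x - c)) * Φ x, ?_, ?_, ?_⟩
  · have := Φ.continuous
    fun_prop
  · intro x hx
    simp only [hΦ0 x hx, mul_zero]
  · intro x
    simp only
    rcases le_total x c with hx | hx
    · rw [hΦ0 x hx, hh0 x hx, mul_zero, zero_add]
      symm
      have : ∫ τ in c..x, N (τ, x) * (Real.exp (L * (τ - c)) * Φ τ) = ∫ τ in c..x, (0 : ℝ) := by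
        apply intervalIntegral.integral_congr
        intro τ hτ
        rw [uIcc_of_ge hx] at hτ
        simp only [hΦ0 τ hτ.2, mul_zero]
      rw [this]
      simp
    · rw [hΦ' x, max_eq_left hx, mul_add, ← mul_assoc, ← Real.exp_add,
        ← intervalIntegral.integral_const_mul]
      congr 1
      · have : L * (x - c) + -L * (x - c) = 0 := by ring
        rw [this, Real.exp_zero, one_mul]
      · apply intervalIntegral.integral_congr
        intro τ _
        simp only
        have : Real.exp (L * (τ - c)) = Real.exp (L * (x - c)) * Real.exp (-L * (x - τ)) := by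
          rw [← Real.exp_add]
          congr 1
          ring
        rw [this]
        ring

end Run7.h592.MO
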